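import Pool.Agent.helper70.QSD.SpecC

/-!
# qsd:GC2 (helper31)
-/

set_option linter.unusedVariables false

namespace Pool.Agent.helper70.QSD

open Pool.Agent.helper53.AU
open scoped Classical IntermediateField Polynomial
open Filter (Tendsto atTop)

noncomputable section

lemma GC2_stable (Φ : KS ≃+* KS) (A : Subfield KS) (hA : Good Φ A) (y : KS) (hy : Φ y = y) :
    ∀ x ∈ A⟮y⟯, Φ x ∈ A⟮y⟯ := by
  intro x hx
  induction hx using IntermediateField.adjoin_induction with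
  | mem x hx =>
    rw [Set.mem_singleton_iff] at hx
    rw [hx, hy]
    exact IntermediateField.mem_adjoin_simple_self A y
  | algebraMap x =>
    exact (A⟮y⟯).algebraMap_mem ⟨Φ x, hA.stb _ x.2⟩
  | add x z _ _ h1 h2 =>
    rw [map_add]
    exact add_mem h1 h2
  | inv x _ h =>
    rw [map_inv₀]
    exact inv_mem h
  | mul x z _ _ h1 h2 =>
    rw [map_mul]
    exact mul_mem h1 h2

/-- the restriction of `Φ` to `A(y)` -/
def GC2_res (Φ : KS ≃+* KS) (A : Subfield KS) (y : KS) (h : ∀ x ∈ A⟮y⟯, Φ x ∈ A⟮y⟯) :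
    A⟮y⟯ →+* A⟮y⟯ :=
  RingHom.codRestrict ((Φ : KS →+* KS).comp (algebraMap A⟮y⟯ KS)) A⟮y⟯ (fun x => h x.1 x.2)

lemma GC2_aeval (Φ : KS ≃+* KS) (A : Subfield KS) (y : KS) (h : ∀ x ∈ A⟮y⟯, Φ x ∈ A⟮y⟯)
    (q : (A⟮y⟯)[X]) (x : KS) :
    Polynomial.aeval (Φ x) (q.map (GC2_res Φ A y h)) = Φ (Polynomial.aeval x q) := by
  rw [Polynomial.aeval_def, Polynomial.aeval_def, Polynomial.eval₂_map]
  have h1 : Φ (Polynomial.eval₂ (algebraMap A⟮y⟯ KS) x q) =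
      (Φ : KS →+* KS) (Polynomial.eval₂ (algebraMap A⟮y⟯ KS) x q) := rfl
  rw [h1, Polynomial.hom_eval₂]
  rfl

lemma GC2_deg (Φ : KS ≃+* KS) (A : Subfield KS) (y : KS) (h : ∀ x ∈ A⟮y⟯, Φ x ∈ A⟮y⟯)
    (x : KS) (hx : IsIntegral A⟮y⟯ x) :
    IsIntegral A⟮y⟯ (Φ x) ∧
      minpoly A⟮y⟯ (Φ x) ∣ (minpoly A⟮y⟯ x).map (GC2_res Φ A y h) ∧
      (minpoly A⟮y⟯ (Φ x)).natDegree ≤ (minpoly A⟮y⟯ x).natDegree := by
  have hm : ((minpoly A⟮y⟯ x).map (GC2_res Φ A y h)).Monic := (minpoly.monic hx).map _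
  have h0 : Polynomial.aeval (Φ x) ((minpoly A⟮y⟯ x).map (GC2_res Φ A y h)) = 0 := by
    rw [GC2_aeval, minpoly.aeval, map_zero]
  have hdvd := minpoly.dvd A⟮y⟯ (Φ x) h0
  refine ⟨⟨_, hm, h0⟩, hdvd, ?_⟩
  have := Polynomial.natDegree_le_of_dvd hdvd hm.ne_zero
  rwa [Polynomial.natDegree_map] at this

lemma GC2_iter (Φ : KS ≃+* KS) (A : Subfield KS) (y : KS) (h : ∀ x ∈ A⟮y⟯, Φ x ∈ A⟮y⟯)
    (x : KS) (hx : IsIntegral A⟮y⟯ x) (k : ℕ) :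
    IsIntegral A⟮y⟯ ((⇑Φ)^[k] x) ∧
      (minpoly A⟮y⟯ ((⇑Φ)^[k] x)).natDegree ≤ (minpoly A⟮y⟯ x).natDegree := by
  induction k with
  | zero => exact ⟨hx, le_rfl⟩
  | succ k ih =>
    rw [Function.iterate_succ_apply']
    obtain ⟨h1, _, h3⟩ := GC2_deg Φ A y h _ ih.1
    exact ⟨h1, h3.trans ih.2⟩

lemma GC2_minpoly (Φ : KS ≃+* KS) (A : Subfield KS) (y : KS) (h : ∀ x ∈ A⟮y⟯, Φ x ∈ A⟮y⟯)
    (x : KS) (hx : IsIntegral A⟮y⟯ x) (hper : ∃ e : ℕ, 1 ≤ e ∧ (⇑Φ)^[e] x = x) :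
    minpoly A⟮y⟯ (Φ x) = (minpoly A⟮y⟯ x).map (GC2_res Φ A y h) := by
  obtain ⟨e, he, hex⟩ := hper
  obtain ⟨k, rfl⟩ := Nat.exists_eq_add_of_le he
  obtain ⟨h1, h2, h3⟩ := GC2_deg Φ A y h x hx
  have h4 := (GC2_iter Φ A y h (Φ x) h1 k).2
  rw [← Function.iterate_succ_apply, Nat.succ_eq_add_one, Nat.add_comm k 1, hex] at h4
  exact (Polynomial.eq_of_monic_of_dvd_of_natDegree_le (minpoly.monic h1)
    ((minpoly.monic hx).map _) h2 (by rw [Polynomial.natDegree_map]; exact h4)).symm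

lemma GC2_good (Φ : KS ≃+* KS) (A : Subfield KS) (y : KS) (h : ∀ x ∈ A⟮y⟯, Φ x ∈ A⟮y⟯)
    (x : KS) (hx : IsSeparable A⟮y⟯ x ∧ ∃ e : ℕ, 1 ≤ e ∧ (⇑Φ)^[e] x = x) :
    IsSeparable A⟮y⟯ (Φ x) ∧ ∃ e : ℕ, 1 ≤ e ∧ (⇑Φ)^[e] (Φ x) = Φ x := by
  refine ⟨?_, ?_⟩
  · show (minpoly A⟮y⟯ (Φ x)).Separable
    rw [GC2_minpoly Φ A y h x hx.1.isIntegral hx.2]
    exact Polynomial.Separable.map hx.1
  · obtain ⟨e, he, hex⟩ := hx.2
    refine ⟨e, he, ?_⟩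
    rw [← Function.iterate_succ_apply, Function.iterate_succ_apply', hex]

lemma GC2_orb (Φ : KS ≃+* KS) (A : Subfield KS) (y : KS) (h : ∀ x ∈ A⟮y⟯, Φ x ∈ A⟮y⟯)
    (E : Finset KS)
    (hE : ∀ x ∈ E, IsSeparable A⟮y⟯ x ∧ ∃ e : ℕ, 1 ≤ e ∧ (⇑Φ)^[e] x = x) :
    ∃ E' : Finset KS, E ⊆ E' ∧ (∀ x ∈ E', Φ x ∈ E') ∧
      ∀ x ∈ E', IsSeparable A⟮y⟯ x ∧ ∃ e : ℕ, 1 ≤ e ∧ (⇑Φ)^[e] x = x := by
  have h1 : ∀ x : KS, ∃ n : ℕ, x ∈ E → 1 ≤ n ∧ (⇑Φ)^[n] x = x := by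
    intro x
    by_cases hx : x ∈ E
    · obtain ⟨e, he⟩ := (hE x hx).2
      exact ⟨e, fun _ => he⟩
    · exact ⟨0, fun h => (hx h).elim⟩
  choose n hn using h1
  refine ⟨E.biUnion (fun x => (Finset.range (n x)).image (fun k => (⇑Φ)^[k] x)), ?_, ?_, ?_⟩
  · intro x hx
    rw [Finset.mem_biUnion]
    refine ⟨x, hx, Finset.mem_image.2 ⟨0, Finset.mem_range.2 ?_, rfl⟩⟩
    have := (hn x hx).1
    omega
  · intro z hz
    rw [Finset.mem_biUnion] at hz ⊢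
    obtain ⟨x, hx, hz⟩ := hz
    obtain ⟨k, hk, rfl⟩ := Finset.mem_image.1 hz
    rw [Finset.mem_range] at hk
    refine ⟨x, hx, ?_⟩
    rw [← Function.iterate_succ_apply' (⇑Φ) k x]
    by_cases hkn : k + 1 = n x
    · rw [Nat.succ_eq_add_one, hkn, (hn x hx).2]
      exact Finset.mem_image.2 ⟨0, Finset.mem_range.2 (by omega), rfl⟩
    · exact Finset.mem_image.2 ⟨k + 1, Finset.mem_range.2 (by omega), rfl⟩
  · intro z hz
    rw [Finset.mem_biUnion] at hz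
    obtain ⟨x, hx, hz⟩ := hz
    obtain ⟨k, hk, rfl⟩ := Finset.mem_image.1 hz
    clear hk hz
    induction k with
    | zero => exact hE x hx
    | succ k ih =>
      rw [Function.iterate_succ_apply']
      exact GC2_good Φ A y h _ ih

theorem GC2 (hACL : ACL_stmt) : GC2_stmt := by
  intro Φ A hA y hy E hE
  have hst := GC2_stable Φ A hA y hy
  obtain ⟨E', hEE', hE'st, hE'⟩ := GC2_orb Φ A y hst E hE
  set s : Finset (A⟮y⟯)[X] := E'.image (fun x => minpoly A⟮y⟯ x) with hs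
  set p : (A⟮y⟯)[X] := ∏ q ∈ s, q with hp
  have hmon : ∀ q ∈ s, q.Monic := by
    intro q hq
    obtain ⟨x, hx, rfl⟩ := Finset.mem_image.1 hq
    exact minpoly.monic (hE' x hx).1.isIntegral
  have hirr : ∀ q ∈ s, Irreducible q := by
    intro q hq
    obtain ⟨x, hx, rfl⟩ := Finset.mem_image.1 hq
    exact minpoly.irreducible (hE' x hx).1.isIntegral
  have hpm : p.Monic := Polynomial.monic_prod_of_monic s (fun q => q) hmon
  have hroot : ∀ x : KS, Polynomial.aeval x p = 0 ↔ ∃ q ∈ s, Polynomial.aeval x q = 0 := by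
    intro x
    rw [hp, map_prod, Finset.prod_eq_zero_iff]
  refine ⟨(p.aroots KS).toFinset, p, ?_, ?_, hpm, ?_, ?_⟩
  · intro x hx
    rw [Multiset.mem_toFinset, Polynomial.mem_aroots, hroot]
    exact ⟨hpm.ne_zero, minpoly A⟮y⟯ x, Finset.mem_image_of_mem _ (hEE' hx),
      minpoly.aeval _ _⟩
  · intro x hx
    rw [Multiset.mem_toFinset, Polynomial.mem_aroots, hroot] at hx ⊢
    obtain ⟨_, q, hq, hxq⟩ := hx
    obtain ⟨e, he, rfl⟩ := Finset.mem_image.1 hq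
    refine ⟨hpm.ne_zero, minpoly A⟮y⟯ (Φ e), Finset.mem_image_of_mem _ (hE'st e he), ?_⟩
    rw [GC2_minpoly Φ A y hst e (hE' e he).1.isIntegral (hE' e he).2, GC2_aeval, hxq, map_zero]
  · apply Polynomial.separable_prod'
    · intro q hq q' hq' hne
      rw [(hirr q hq).coprime_iff_not_dvd]
      intro hdvd
      apply hne
      exact Polynomial.eq_of_monic_of_associated (hmon q hq) (hmon q' hq')
        ((hirr q hq).associated_of_dvd (hirr q' hq') hdvd)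
    · intro q hq
      obtain ⟨x, hx, rfl⟩ := Finset.mem_image.1 hq
      exact (hE' x hx).1
  · intro x
    rw [Multiset.mem_toFinset, Polynomial.mem_aroots]
    exact ⟨fun h => ⟨hpm.ne_zero, h⟩, fun h => h.2⟩

end

end Pool.Agent.helper70.QSD
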