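import Pool.Agent.helper70.QSD.SpecC

/-!
# qsd:INI (helper31)
-/

set_option linter.unusedVariables false

namespace Pool.Agent.helper70.QSD

open Pool.Agent.helper53.AU
open scoped Classical IntermediateField Polynomial
open Filter (Tendsto atTop)

noncomputable section

lemma INI_pow {M : Type} [Monoid M] (y : M) (k c : ℕ) (h : y ^ 2 ^ k = y) :
    y ^ 2 ^ (k * c) = y := by
  induction c with
  | zero => simp
  | succ c ih => rw [Nat.mul_succ, pow_add, pow_mul, ih, h]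

lemma INI_eq (s t : ℕ → kk) : pr s = pr t ↔ ∀ᶠ j in (UU : Filter ℕ), s j = t j := by
  show (s : Filter.Germ (UU : Filter ℕ) kk) = (t : Filter.Germ (UU : Filter ℕ) kk) ↔ _
  rw [Filter.Germ.coe_eq]
  rfl

lemma INI_surj (x : KS) : ∃ t : ℕ → kk, x = pr t := by
  induction x using Filter.Germ.inductionOn with
  | _ t => exact ⟨t, rfl⟩

lemma INI_iter (N : ℕ → ℕ) (Φ : KS ≃+* KS) (hΦ : IsFr N Φ) (t : ℕ → kk) (e : ℕ) :
    (⇑Φ)^[e] (pr t) = pr (fun j => t j ^ 2 ^ (N j * e)) := by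
  induction e with
  | zero => simp
  | succ e ih =>
    rw [Function.iterate_succ_apply', ih, hΦ]
    congr 1
    funext j
    rw [← pow_mul, ← pow_add, Nat.mul_succ]

theorem INI (hCLB : CLB_stmt) (hACC : ACC_stmt) : INI_stmt := by
  intro N m Φ Φ' hΦ hΦ' hm r a ha
  obtain ⟨h1, h2, h3⟩ := hCLB.2 Φ (Set.range a) (Set.countable_range a)
    (by
      rintro _ ⟨i, rfl⟩
      exact ⟨1, le_rfl, ha i⟩)
    (by
      rintro _ ⟨i, rfl⟩
      rw [ha i]
      exact ⟨i, rfl⟩)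
  obtain ⟨A, hA, hle, _⟩ := hACC Φ (Subfield.closure (Set.range a)) h1 h2 h3
  refine ⟨A, ⟨hA, ?_⟩, fun i => hle (Subfield.subset_closure ⟨i, rfl⟩)⟩
  intro x hx hx'
  show Φ' (Φ x) = x
  obtain ⟨t, rfl⟩ := INI_surj x
  obtain ⟨e, he, hex⟩ := hA.orb _ hx
  rw [INI_iter N Φ hΦ t e, INI_eq] at hex
  rw [hΦ t, hΦ', INI_eq]
  filter_upwards [hex, hm e he] with j hj hd
  obtain ⟨c, hc⟩ := hd
  rw [← pow_mul, ← pow_add]
  have h4 : N j + N j * m j = N j * e * c := by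
    rw [mul_assoc, ← hc]
    ring
  rw [h4]
  exact INI_pow _ _ _ hj

end

end Pool.Agent.helper70.QSD
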